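import Pool.Agent.MVO.StmtsV
import Pool.Agent.Helper80_MVO.GTK

/-!
# Squad MVO, row GVK (helper90), adapted from row GTK of helper80
-/

set_option autoImplicit false

namespace Pool.Agent.MVO.H90

open Pool.Agent.Helper14_MV Pool.Agent.Helper2_MV
open Pool.Agent.MVO.H80 (sb ns tau ns_append tau_append tau_not_mem tau_block ns_block sep_true
  ns_asm tau_asm tau_filter tau_mw filter_mw flat_nil count_mw)

/-- the number of letters 1 in front of the `m`-th letter 0 -/
def hzf : ℕ → List ℕ → ℕ
  | _, [] => 0
  | m, a :: l => if a = 0 then (if m ≤ 1 then 0 else hzf (m - 1) l)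
    else (if a = 1 then 1 else 0) + hzf m l

theorem hz_lt (u v : List ℕ) (m : ℕ) (h : u.count 0 < m) :
    hzf m (u ++ v) = u.count 1 + hzf (m - u.count 0) v := by
  induction u generalizing m with
  | nil => simp
  | cons a u ih =>
    rw [List.cons_append, hzf]
    by_cases ha : a = 0
    · subst ha
      rw [List.count_cons_self] at h
      rw [if_pos rfl, if_neg (by omega), ih (m - 1) (by omega), List.count_cons_self,
        List.count_cons_of_ne (by decide)]
      congr 2
      omega
    · have h0 : (a :: u).count 0 = u.count 0 := List.count_cons_of_ne ha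
      rw [h0] at h ⊢
      rw [if_neg ha, ih m h]
      by_cases h1 : a = 1
      · subst h1
        rw [if_pos rfl, List.count_cons_self]
        omega
      · rw [if_neg h1, List.count_cons_of_ne h1]
        omega

theorem hz_ge (u v : List ℕ) (m : ℕ) (h1 : 1 ≤ m) (h : m ≤ u.count 0) :
    hzf m (u ++ v) = hzf m u := by
  induction u generalizing m with
  | nil =>
    rw [List.count_nil] at h
    omega
  | cons a u ih =>
    rw [List.cons_append, hzf, hzf]
    by_cases ha : a = 0
    · subst ha
      rw [List.count_cons_self] at h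
      rw [if_pos rfl, if_pos rfl]
      by_cases hm : m ≤ 1
      · rw [if_pos hm, if_pos hm]
      · rw [if_neg hm, if_neg hm, ih (m - 1) (by omega) (by omega)]
    · have h0 : (a :: u).count 0 = u.count 0 := List.count_cons_of_ne ha
      rw [h0] at h
      rw [if_neg ha, if_neg ha, ih m h1 h]

theorem hz_rep (n r : ℕ) (R : List ℕ) (h1 : 1 ≤ r) (h : r ≤ n) :
    hzf r (List.replicate n 0 ++ R) = 0 := by
  induction n generalizing r with
  | zero => omega
  | succ n ih =>
    rw [List.replicate_succ, List.cons_append, hzf, if_pos rfl]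
    by_cases hr : r ≤ 1
    · rw [if_pos hr]
    · rw [if_neg hr, ih (r - 1) (by omega) (by omega)]

theorem hz_mw (g : ℕ → List ℕ) (hg : g 0 = [0]) (k1 j0 : ℕ) (hj : j0 ≤ k1)
    (hg2 : ∀ t < k1, 0 ∉ g (t + 2)) (c : ℕ → ℕ) (m : ℕ) (ho : Occ c m j0) (R : List ℕ) :
    hzf m ((mw k1 c).flatMap g ++ R) = ∑ t ∈ Finset.range j0, (g (t + 2)).count 1 := by
  have hrep : ∀ n : ℕ, (List.replicate n 0).flatMap g = List.replicate n 0 := by
    intro n
    induction n with
    | zero => rfl
    | succ n ih => rw [List.replicate_succ, List.flatMap_cons, ih, hg]; rfl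
  obtain ⟨ho1, ho2⟩ := ho
  induction k1 generalizing R with
  | zero =>
    obtain rfl : j0 = 0 := by omega
    rw [zero_add, Finset.sum_range_one] at ho2
    rw [Finset.sum_range_zero] at ho1 ⊢
    unfold mw
    simp only [asm]
    rw [hrep]
    exact hz_rep _ _ _ (by omega) ho2
  | succ k1 ih =>
    have hc0 := count_mw g k1 c 0
    have hs0 : ∑ t ∈ Finset.range k1, (g (t + 2)).count 0 = 0 := by
      apply Finset.sum_eq_zero
      intro t ht
      exact List.count_eq_zero.2 (hg2 t (by have := Finset.mem_range.1 ht; omega))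
    rw [hs0, hg, List.count_singleton_self, mul_one, add_zero] at hc0
    have e : (mw (k1 + 1) c).flatMap g
        = (mw k1 c).flatMap g ++ (g (k1 + 2) ++ List.replicate (c (k1 + 1)) 0) := by
      unfold mw
      simp only [asm]
      rw [List.flatMap_append, List.flatMap_cons, hrep]
    rw [e, List.append_assoc]
    by_cases hjk : j0 ≤ k1
    · have hle : m ≤ deg k1 c := by
        refine ho2.trans ?_
        unfold deg
        exact Finset.sum_le_sum_of_subset (Finset.range_subset_range.2 (by omega))
      rw [hz_ge _ _ m (by omega) (by rw [hc0]; exact hle)]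
      have := ih hjk (fun t ht => hg2 t (by omega)) []
      rwa [List.append_nil] at this
    · obtain rfl : j0 = k1 + 1 := by omega
      have hlt : ((mw k1 c).flatMap g).count 0 < m := by
        rw [hc0]
        exact ho1
      rw [hz_lt _ _ m hlt, hc0, List.append_assoc]
      have hg0 : (g (k1 + 2)).count 0 = 0 := List.count_eq_zero.2 (hg2 k1 (by omega))
      have hd : deg k1 c = ∑ j ∈ Finset.range (k1 + 1), c j := rfl
      rw [Finset.sum_range_succ] at ho2
      rw [hz_lt _ _ _ (by rw [hg0]; omega), hg0, Nat.sub_zero,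
        hz_rep _ _ _ (by omega) (by omega), Finset.sum_range_succ, count_mw g k1 c 1, hg]
      simp

theorem last_zero (L : List ℕ) (h : ∀ c ∈ L, c = 0 ∨ c = 1) (h0 : 1 ≤ L.count 0) :
    ∃ Y t, L = Y ++ 0 :: List.replicate t 1 := by
  induction L using List.reverseRecOn with
  | nil =>
    rw [List.count_nil] at h0
    omega
  | append_singleton L a ih =>
    rcases h a (by simp) with rfl | rfl
    · exact ⟨L, 0, rfl⟩
    · rw [List.count_append] at h0
      have e : List.count 0 [1] = 0 := by decide
      rw [e, add_zero] at h0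
      obtain ⟨Y, t, hY⟩ := ih (fun c hc => h c (by simp [hc])) h0
      refine ⟨Y, t + 1, ?_⟩
      rw [hY, List.replicate_succ', List.append_assoc, List.cons_append]

theorem asm_pre (B : ℕ → List ℕ) {i k : ℕ} (h : i ≤ k) : ∃ R, asm k B = asm i B ++ R := by
  induction k with
  | zero =>
    obtain rfl : i = 0 := by omega
    exact ⟨[], by rw [List.append_nil]⟩
  | succ k ih =>
    by_cases hi : i = k + 1
    · subst hi
      exact ⟨[], by rw [List.append_nil]⟩
    · obtain ⟨R, hR⟩ := ih (by omega)
      refine ⟨R ++ (k + 2) :: B (k + 1), ?_⟩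
      simp only [asm]
      rw [hR, List.append_assoc]

theorem asm_last (B : ℕ → List ℕ) (i : ℕ) : ∃ P, asm i B = P ++ B i := by
  cases i with
  | zero => exact ⟨[], rfl⟩
  | succ i =>
    refine ⟨asm i B ++ [i + 2], ?_⟩
    simp only [asm]
    rw [List.append_assoc]
    rfl

theorem last_iff {k i m : ℕ} (hik : i ≤ k) {B : ℕ → List ℕ} (hB : BlkOk k B)
    (h01 : ∀ j ≤ k, ∀ c ∈ B j, c = 0 ∨ c = 1)
    (hm : (∑ j ∈ Finset.range (i + 1), (B j).count 0) = m) (h1 : 1 ≤ (B i).count 0) :
    (B i).getLast? = some 1 ↔ hzf m (asm k B) < ∑ j ∈ Finset.range (i + 1), (B j).count 1 := by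
  obtain ⟨R, hR⟩ := asm_pre B hik
  obtain ⟨P, hP⟩ := asm_last B i
  obtain ⟨Y, t, hY⟩ := last_zero (B i) (h01 i hik) h1
  have hc : ∀ d, d = 0 ∨ d = 1 → (asm i B).count d = ∑ j ∈ Finset.range (i + 1), (B j).count d := by
    intro d hd
    have hNS : NS i d := fun h => by omega
    rw [count_asm hNS]
    rfl
  have hc0 := hc 0 (Or.inl rfl)
  have hc1 := hc 1 (Or.inr rfl)
  rw [hm] at hc0
  have hmpos : 1 ≤ m := by
    rw [← hc0, hP, List.count_append]
    omega
  have e : asm i B = (P ++ Y) ++ 0 :: List.replicate t 1 := by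
    rw [hP, hY, List.append_assoc]
  have e0 : (P ++ Y).count 0 + 1 = m := by
    rw [← hc0, e, List.count_append (l₁ := P ++ Y), List.count_cons_self, List.count_replicate]
    simp
  have e1 : (P ++ Y).count 1 + t = ∑ j ∈ Finset.range (i + 1), (B j).count 1 := by
    rw [← hc1, e, List.count_append (l₁ := P ++ Y), List.count_cons_of_ne (by decide),
      List.count_replicate_self]
  have e2 : hzf m (asm k B) = (P ++ Y).count 1 := by
    rw [hR, hz_ge _ _ m hmpos (by rw [hc0]), e, hz_lt _ _ m (by omega), hzf, if_pos rfl,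
      if_pos (by omega), add_zero]
  rw [e2, ← e1, hY]
  rcases Nat.eq_zero_or_pos t with ht | ht
  · subst ht
    simp
  · obtain ⟨s, rfl⟩ : ∃ s, t = s + 1 := ⟨t - 1, by omega⟩
    rw [List.replicate_succ', ← List.cons_append, ← List.append_assoc, List.getLast?_append]
    simp

theorem gvk_dir (k i m : ℕ) (T : (ℕ → ℕ) → (ℕ → ℕ) → Prop) (hik : i ≤ k) (hext : TExt k T) (hdeg : TDeg k T)
    (hmul : TMul k i T) (hm : ∀ a b, T a b → (∑ j ∈ Finset.range (i + 1), a j) = m)
    (k1 j0 : ℕ) (c c' : ℕ → ℕ) (hc : deg k1 c = 3) (hjk : j0 ≤ k1) (ho : Occ c m j0)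
    (ho' : Occ c' m j0)
    (hT : ∀ f, BMap k1 k f → ∀ b, T (psh k1 f c) b → T (psh k1 f c') b)
    (g : ℕ → List ℕ) (M Q : List ℕ)
    (h : QV k i T (FreeMonoid.ofList (M ++ (mw k1 c).flatMap g ++ Q))) :
    QV k i T (FreeMonoid.ofList (M ++ (mw k1 c').flatMap g ++ Q)) := by
  obtain ⟨B, hW, h01, hTB, hlast⟩ := h
  rw [FreeMonoid.toList_ofList] at hW
  have hB : BlkOk k B := by
    intro j hj a ha hs
    rcases h01 j hj a ha with h | h
    · omega
    · omega
  obtain ⟨hd0, hd1⟩ := hdeg _ _ hTB
  have hNS0 : NS k 0 := fun h => by omega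
  have hNS1 : NS k 1 := fun h => by omega
  have hcount0 : (asm k B).count 0 = 3 := by rw [count_asm hNS0]; exact hd0
  have hcount : ∀ d, d ≠ 0 → (asm k B).count d ≤ 2 := by
    intro d hd
    by_cases h1 : d = 1
    · subst h1
      rw [count_asm hNS1]
      exact hd1.le
    · by_cases h2 : 2 ≤ d ∧ d ≤ k + 1
      · rw [count_sep hB h2.1 h2.2]
        omega
      · have : d ∉ asm k B := by
          rw [mem_asm]
          rintro (h | ⟨j, hj, h⟩)
          · exact h2 h
          · rcases h01 j hj d h with h3 | h3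
            · exact hd h3
            · exact h1 h3
        rw [List.count_eq_zero_of_not_mem this]
        omega
  have hcW : ∀ d, (asm k B).count d = M.count d + (3 * (g 0).count d +
      ∑ t ∈ Finset.range k1, (g (t + 2)).count d) + Q.count d := by
    intro d
    rw [← hW, List.count_append, List.count_append, count_mw, hc]
  have hz : ∀ d ∈ g 0, d = 0 := by
    intro d hd
    by_contra hne
    have h1 := hcount d hne
    rw [hcW d] at h1
    have h2 : 0 < (g 0).count d := List.count_pos_iff.2 hd
    omega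
  have hg0 : g 0 = List.replicate ((g 0).length) 0 := List.eq_replicate_of_mem hz
  have hlen : (g 0).length ≤ 1 := by
    have h1 := hcW 0
    rw [hcount0] at h1
    have h2 : (g 0).count 0 = (g 0).length := by
      conv_lhs => rw [hg0]
      rw [List.count_replicate_self]
    omega
  rcases Nat.lt_or_ge (g 0).length 1 with hl0 | hl1
  · -- empty image
    have hnil : g 0 = [] := List.length_eq_zero_iff.1 (by omega)
    rw [flat_nil g hnil k1 c' c]
    exact ⟨B, by rw [FreeMonoid.toList_ofList]; exact hW, h01, hTB, hlast⟩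
  · have hone : (g 0).length = 1 := by omega
    have hg : g 0 = [0] := by rw [hg0, hone]; rfl
    have h3 := hcW 0
    rw [hcount0, hg] at h3
    have hsum : ∑ t ∈ Finset.range k1, (g (t + 2)).count 0 = 0 := by
      simp at h3
      omega
    have hM : M.count 0 = 0 := by simp at h3; omega
    have hQ : Q.count 0 = 0 := by simp at h3; omega
    have hM' : 0 ∉ M := List.count_eq_zero.1 hM
    have hQ' : 0 ∉ Q := List.count_eq_zero.1 hQ
    have hg2 : ∀ t < k1, 0 ∉ g (t + 2) := by
      intro t ht
      rw [Finset.sum_eq_zero_iff] at hsum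
      exact List.count_eq_zero.1 (hsum t (Finset.mem_range.2 ht))
    set W := M ++ (mw k1 c).flatMap g ++ Q with hWdef
    set W' := M ++ (mw k1 c').flatMap g ++ Q with hW'def
    have hfil : W'.filter (fun c => decide (c ≠ 0)) = W.filter (fun c => decide (c ≠ 0)) := by
      rw [hWdef, hW'def, List.filter_append, List.filter_append, List.filter_append,
        List.filter_append, filter_mw g (Or.inl hg) k1 c' c]
    have hmem : ∀ d, d ≠ 0 → (d ∈ W' ↔ d ∈ W) := by
      intro d hd
      have h5 : ∀ l : List ℕ, d ∈ l.filter (fun c => decide (c ≠ 0)) ↔ d ∈ l := by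
        intro l
        rw [List.mem_filter]
        simp [hd]
      rw [← h5 W', hfil, h5 W]
    have hsep : W'.filter (fun c => decide (2 ≤ c ∧ c ≤ k + 1)) = seps k := by
      have h5 : ∀ l : List ℕ, (l.filter (fun c => decide (c ≠ 0))).filter
          (fun c => decide (2 ≤ c ∧ c ≤ k + 1)) = l.filter (fun c => decide (2 ≤ c ∧ c ≤ k + 1)) := by
        intro l
        rw [List.filter_filter]
        refine List.filter_congr fun a _ => ?_
        by_cases h6 : 2 ≤ a ∧ a ≤ k + 1
        · have h7 : a ≠ 0 := by omega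
          simp [h6, h7]
        · simp [h6]
      rw [← h5 W', hfil, h5 W, hW]
      exact filter_sep hB
    obtain ⟨B', hB', hW'⟩ := dec hsep
    have hB'k : BlkOk k B' := fun j _ a ha => hB' j a ha
    set f : ℕ → ℕ := fun i => ns k M + ∑ t ∈ Finset.range i, ns k (g (t + 2)) with hf
    have htau : ∀ (e : ℕ → ℕ) (j : ℕ), tau k 0 0 (M ++ (mw k1 e).flatMap g ++ Q) j =
        psh k1 f e j := by
      intro e j
      rw [tau_append, tau_append, tau_not_mem k 0 M hM', tau_not_mem k 0 Q hQ',
        (tau_mw k g hg k1 hg2 e (0 + ns k M) j).2]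
      unfold psh
      rw [zero_add, add_zero, zero_add]
    have hBMap : BMap k1 k f := by
      have hmono : Monotone f := by
        intro i j hij
        simp only [hf]
        exact Nat.add_le_add_left (Finset.sum_le_sum_of_subset (Finset.range_subset_range.2 hij)) _
      refine ⟨fun i j hij _ => hmono hij, fun i hi => (hmono hi).trans ?_⟩
      have h5 := ns_asm (le_refl k) hB
      rw [← hW, hWdef, ns_append, ns_append, (tau_mw k g hg k1 hg2 c 0 0).1] at h5
      simp only [hf]
      omega
    have hj0 : ∀ j ≤ k, (B j).count 0 = psh k1 f c j := by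
      intro j hj
      rw [← htau c j, ← hWdef, hW, tau_asm (le_refl k) hB hNS0, if_pos hj]
    have hj0' : ∀ j ≤ k, (B' j).count 0 = psh k1 f c' j := by
      intro j hj
      rw [← htau c' j, ← hW'def, hW', tau_asm (le_refl k) hB'k hNS0, if_pos hj]
    have hj1 : ∀ j ≤ k, (B j).count 1 = (B' j).count 1 := by
      intro j hj
      have h5 : tau k 1 0 W j = tau k 1 0 W' j := by
        rw [← tau_filter k 1 one_ne_zero W, ← tau_filter k 1 one_ne_zero W', hfil]
      rw [hW, hW', tau_asm (le_refl k) hB hNS1, tau_asm (le_refl k) hB'k hNS1, if_pos hj,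
        if_pos hj] at h5
      exact h5
    have h01' : ∀ j ≤ k, ∀ a ∈ B' j, a = 0 ∨ a = 1 := by
      intro j hj a ha
      by_cases ha0 : a = 0
      · exact Or.inl ha0
      · have h5 : a ∈ W' := by rw [hW', mem_asm]; exact Or.inr ⟨j, hj, ha⟩
        rw [hmem a ha0, hW, mem_asm] at h5
        rcases h5 with h5 | ⟨i, hi, h5⟩
        · exact absurd h5 (hB' j a ha)
        · exact h01 i hi a h5
    have hTB' : T (fun j => (B' j).count 0) (fun j => (B' j).count 1) := by
      have h5 : T (psh k1 f c) (fun j => (B j).count 1) :=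
        hext _ _ _ _ hj0 (fun j _ => rfl) hTB
      have h6 := hT f hBMap _ h5
      exact hext _ _ _ _ (fun j hj => (hj0' j hj).symm) hj1 h6
    refine ⟨B', by rw [FreeMonoid.toList_ofList]; exact hW', h01', hTB', ?_⟩
    have hm1 := hm _ _ hTB
    have hm1' := hm _ _ hTB'
    obtain ⟨-, -, hm2, -⟩ := hmul _ _ hTB
    obtain ⟨-, -, hm2', -⟩ := hmul _ _ hTB'
    have hA := last_iff hik hB h01 hm1 hm2
    have hA' := last_iff hik hB'k h01' hm1' hm2'
    rw [hA'] 
    rw [hA] at hlast
    have hsum1 : ∑ j ∈ Finset.range (i + 1), (B' j).count 1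
        = ∑ j ∈ Finset.range (i + 1), (B j).count 1 := by
      apply Finset.sum_congr rfl
      intro j hj
      rw [Finset.mem_range] at hj
      exact (hj1 j (by omega)).symm
    rw [hsum1]
    have hmpos : 1 ≤ m := by
      have := ho.1
      omega
    have hh : ∀ e : ℕ → ℕ, Occ e m j0 → hzf m (M ++ (mw k1 e).flatMap g ++ Q)
        = M.count 1 + ∑ t ∈ Finset.range j0, (g (t + 2)).count 1 := by
      intro e he
      rw [List.append_assoc, hz_lt M _ m (by omega), hM, Nat.sub_zero,
        hz_mw g hg k1 j0 hjk hg2 e m he Q]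
    rw [← hW', hW'def, hh c' ho']
    rw [← hW, hWdef, hh c ho] at hlast
    exact hlast

/-- Row GVK. -/
theorem gvk : GvkStmt := by
  intro k i m T hik hext hdeg hmul hm k1 j0 c c' hc hc' hjk ho ho' hT
  unfold L1 RR GV gam
  intro φ p q
  have e : ∀ l : List ℕ, p * φ (FreeMonoid.ofList l) * q = FreeMonoid.ofList
      (p.toList ++ l.flatMap (fun i => (φ (FreeMonoid.of i)).toList) ++ q.toList) := by
    intro l
    apply FreeMonoid.toList.injective
    rw [FreeMonoid.toList_mul, FreeMonoid.toList_mul, toList_hom, FreeMonoid.toList_ofList,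
      FreeMonoid.toList_ofList]
  rw [e, e]
  exact ⟨gvk_dir k i m T hik hext hdeg hmul hm k1 j0 c c' hc hjk ho ho'
      (fun f hf b => (hT f hf b).1) _ _ _,
    gvk_dir k i m T hik hext hdeg hmul hm k1 j0 c' c hc' hjk ho' ho
      (fun f hf b => (hT f hf b).2) _ _ _⟩

end Pool.Agent.MVO.H90
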